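import Pool.Agent.Helper15.AB.GoalsG
import Pool.Agent.Helper8.Abund.FDerivHolo

/-! Packet AB LEVC (MP_1ef41b_an): chain rule for the Levi form. -/

open MeasureTheory Set Filter Topology
open scoped ContDiff

noncomputable section

namespace Pool.Agent.Helper55.AB

open Pool.Agent.Helper24.AB Pool.Agent.Helper15.AB

theorem levc : S_LEVC := by
  intro n m U Θ u P hU hΘ hP hu ξ
  have hd1 : DifferentiableOn ℂ (fderiv ℂ Θ) U :=
    Pool.Agent.Helper8.Abund.differentiableOn_fderiv hU hΘ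
  have hUP : U ∈ 𝓝 P := hU.mem_nhds hP
  have hΘd : ∀ Q ∈ U, HasFDerivAt Θ ((fderiv ℂ Θ Q).restrictScalars ℝ) Q := fun Q hQ =>
    ((hΘ.differentiableAt (hU.mem_nhds hQ)).hasFDerivAt).restrictScalars ℝ
  -- second derivative of Θ
  set S : (Fin n → ℂ) →L[ℂ] (Fin n → ℂ) →L[ℂ] (Fin m → ℂ) := fderiv ℂ (fderiv ℂ Θ) P with hS
  have hd2 : HasFDerivAt (fderiv ℂ Θ) (S.restrictScalars ℝ) P :=
    ((hd1.differentiableAt hUP).hasFDerivAt).restrictScalars ℝ
  set R : ((Fin n → ℂ) →L[ℂ] (Fin m → ℂ)) →L[ℝ] ((Fin n → ℂ) →L[ℝ] (Fin m → ℂ)) :=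
    ContinuousLinearMap.restrictScalarsL ℂ (Fin n → ℂ) (Fin m → ℂ) ℝ ℝ with hR
  have hB : HasFDerivAt (fun Q => (fderiv ℂ Θ Q).restrictScalars ℝ)
      (R.comp (S.restrictScalars ℝ)) P := R.hasFDerivAt.comp P hd2
  -- second derivative of u
  have hu1 : DifferentiableAt ℝ (fderiv ℝ u) (Θ P) :=
    (hu.fderiv_right (m := 1) (by norm_num)).differentiableAt (by norm_num)
  have hA : HasFDerivAt (fun Q => fderiv ℝ u (Θ Q))
      ((fderiv ℝ (fderiv ℝ u) (Θ P)).comp ((fderiv ℂ Θ P).restrictScalars ℝ)) P :=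
    hu1.hasFDerivAt.comp P (hΘd P hP)
  have hAB := hA.clm_comp hB
  have hcont : ContinuousAt Θ P := (hΘd P hP).continuousAt
  have hev : fderiv ℝ (fun Q => u (Θ Q)) =ᶠ[𝓝 P]
      fun Q => (fderiv ℝ u (Θ Q)).comp ((fderiv ℂ Θ Q).restrictScalars ℝ) := by
    have h1 : ∀ᶠ Q in 𝓝 P, ContDiffAt ℝ 2 u (Θ Q) :=
      hcont.eventually (hu.eventually (by simp))
    filter_upwards [h1, hUP] with Q g1 g2
    exact ((g1.differentiableAt (by norm_num)).hasFDerivAt.comp Q (hΘd Q g2)).fderiv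
  have hder := hev.fderiv_eq.trans hAB.fderiv
  have hform : ∀ η : Fin n → ℂ, (fderiv ℝ (fderiv ℝ (fun Q => u (Θ Q))) P η) η
      = fderiv ℝ u (Θ P) (S η η)
        + fderiv ℝ (fderiv ℝ u) (Θ P) (fderiv ℂ Θ P η) (fderiv ℂ Θ P η) := by
    intro η
    rw [hder]
    rfl
  unfold leviForm
  rw [hform ξ, hform (Complex.I • ξ)]
  have hS2 : S (Complex.I • ξ) (Complex.I • ξ) = - S ξ ξ := by
    have h1 : S (Complex.I • ξ) = Complex.I • S ξ := map_smul S _ _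
    have h2 : (Complex.I • S ξ) (Complex.I • ξ) = Complex.I • (S ξ (Complex.I • ξ)) := rfl
    rw [h1, h2, map_smul, smul_smul, Complex.I_mul_I, neg_one_smul]
  rw [hS2, map_neg, map_smul]
  ring

end Pool.Agent.Helper55.AB
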