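import Pool.Agent.Helper24.AB.AN.Goals

/-! Packet AB AN DOMB (MP_1ef41b_an): the basic estimate on the domain. -/

open MeasureTheory Set Filter Topology
open scoped ContDiff

noncomputable section

namespace Pool.Agent.Helper55.AB

open Pool.Agent.Helper24.AB

lemma sq_eLpNorm {μ : Measure ℂ} {f : ℂ → ℂ} (hf : MemLp f 2 μ) :
    ∫ w, ‖f w‖ ^ 2 ∂μ = (eLpNorm f 2 μ).toReal ^ 2 := by
  have h1 := hf.eLpNorm_eq_integral_rpow_norm (by norm_num) (by norm_num)
  have h2 : (2 : ENNReal).toReal = 2 := by norm_num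
  rw [h2] at h1
  have h3 : 0 ≤ ∫ w, ‖f w‖ ^ (2 : ℝ) ∂μ := integral_nonneg fun w => by positivity
  rw [h1, ENNReal.toReal_ofReal (by positivity), ← Real.rpow_natCast, ← Real.rpow_mul h3]
  norm_num

lemma meas_dz {f : ℂ → ℂ} : Measurable (dz f) := by
  unfold dz dS dT
  have h1 := measurable_fderiv_apply_const ℝ f 1
  have h2 := measurable_fderiv_apply_const ℝ f Complex.I
  exact (h1.sub (h2.const_mul Complex.I)).div_const 2

lemma meas_Dop {Φ : ℂ → ℝ} {φ : ℂ → ℂ} (hφ : Continuous φ) : Measurable (Dop Φ φ) := by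
  unfold Dop
  exact (meas_dz.neg).add (meas_dz.mul hφ.measurable)

theorem domb (hB : S_BAS) : S_DOMB := by
  intro a Φ ha hΦ hl z y hzy
  obtain ⟨hz, hy, φ, hφ, h1, h2⟩ := hzy
  have hφc : ∀ n, Continuous (φ n) := fun n => (hφ n).1.continuous
  have hφm : ∀ n, AEStronglyMeasurable (φ n) (muS a) := fun n => (hφc n).aestronglyMeasurable
  have hDm : ∀ n, AEStronglyMeasurable (Dop Φ (φ n)) (muS a) := fun n =>
    (meas_Dop (hφc n)).aestronglyMeasurable
  have hbas := fun n => (hB a Φ ha hΦ hl (φ n) (hφ n)).2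
  -- real sequences
  have h1r : Tendsto (fun n => (eLpNorm (fun w => φ n w - z w) 2 (muS a)).toReal) atTop (𝓝 0) := by
    have := (ENNReal.tendsto_toReal ENNReal.zero_ne_top).comp h1
    rw [ENNReal.toReal_zero] at this
    exact this
  have h2r : Tendsto (fun n => (eLpNorm (fun w => Dop Φ (φ n) w - y w) 2 (muS a)).toReal) atTop
      (𝓝 0) := by
    have := (ENNReal.tendsto_toReal ENNReal.zero_ne_top).comp h2
    rw [ENNReal.toReal_zero] at this
    exact this
  have h1f : ∀ᶠ n in atTop, eLpNorm (fun w => φ n w - z w) 2 (muS a) < ⊤ :=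
    h1.eventually (gt_mem_nhds ENNReal.zero_lt_top)
  have h2f : ∀ᶠ n in atTop, eLpNorm (fun w => Dop Φ (φ n) w - y w) 2 (muS a) < ⊤ :=
    h2.eventually (gt_mem_nhds ENNReal.zero_lt_top)
  have key : ∀ᶠ n in atTop, (eLpNorm z 2 (muS a)).toReal ≤
      4 * a * ((eLpNorm y 2 (muS a)).toReal
        + (eLpNorm (fun w => Dop Φ (φ n) w - y w) 2 (muS a)).toReal)
      + (eLpNorm (fun w => φ n w - z w) 2 (muS a)).toReal := by
    filter_upwards [h1f, h2f] with n g1 g2
    have m1 : MemLp (fun w => φ n w - z w) 2 (muS a) := ⟨(hφm n).sub hz.1, g1⟩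
    have m2 : MemLp (fun w => Dop Φ (φ n) w - y w) 2 (muS a) := ⟨(hDm n).sub hy.1, g2⟩
    have m3 : MemLp (φ n) 2 (muS a) := by
      have := m1.add hz
      refine this.ae_eq (Eventually.of_forall fun w => ?_)
      simp
    have m4 : MemLp (Dop Φ (φ n)) 2 (muS a) := by
      have := m2.add hy
      refine this.ae_eq (Eventually.of_forall fun w => ?_)
      simp
    have e1 : (eLpNorm z 2 (muS a)).toReal ≤ (eLpNorm (φ n) 2 (muS a)).toReal
        + (eLpNorm (fun w => φ n w - z w) 2 (muS a)).toReal := by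
      rw [← ENNReal.toReal_add m3.2.ne m1.2.ne]
      apply ENNReal.toReal_mono (ENNReal.add_ne_top.mpr ⟨m3.2.ne, m1.2.ne⟩)
      have h3 := eLpNorm_sub_le (p := 2) m3.1 m1.1 (by norm_num)
      refine le_trans (le_of_eq ?_) h3
      congr 1
      funext w
      simp
    have e2 : (eLpNorm (Dop Φ (φ n)) 2 (muS a)).toReal ≤ (eLpNorm y 2 (muS a)).toReal
        + (eLpNorm (fun w => Dop Φ (φ n) w - y w) 2 (muS a)).toReal := by
      rw [← ENNReal.toReal_add hy.2.ne m2.2.ne]
      apply ENNReal.toReal_mono (ENNReal.add_ne_top.mpr ⟨hy.2.ne, m2.2.ne⟩)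
      have h3 := eLpNorm_add_le (p := 2) hy.1 m2.1 (by norm_num)
      refine le_trans (le_of_eq ?_) h3
      congr 1
      funext w
      simp
    have e3 : (eLpNorm (φ n) 2 (muS a)).toReal ≤ 4 * a * (eLpNorm (Dop Φ (φ n)) 2 (muS a)).toReal := by
      have h3 := hbas n
      rw [sq_eLpNorm m3, sq_eLpNorm m4] at h3
      have h4 : (eLpNorm (φ n) 2 (muS a)).toReal ^ 2
          ≤ (4 * a * (eLpNorm (Dop Φ (φ n)) 2 (muS a)).toReal) ^ 2 := by
        refine h3.trans (le_of_eq ?_); ring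
      exact (pow_le_pow_iff_left₀ ENNReal.toReal_nonneg (by positivity) (two_ne_zero)).mp h4
    have e4 := mul_le_mul_of_nonneg_left e2 (by positivity : 0 ≤ 4 * a)
    linarith
  have hlim : Tendsto (fun n => 4 * a * ((eLpNorm y 2 (muS a)).toReal
        + (eLpNorm (fun w => Dop Φ (φ n) w - y w) 2 (muS a)).toReal)
      + (eLpNorm (fun w => φ n w - z w) 2 (muS a)).toReal) atTop
      (𝓝 (4 * a * ((eLpNorm y 2 (muS a)).toReal + 0) + 0)) :=
    ((h2r.const_add _).const_mul _).add h1r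
  rw [add_zero, add_zero] at hlim
  have hfin := ge_of_tendsto hlim key
  rw [sq_eLpNorm hz, sq_eLpNorm hy]
  calc (eLpNorm z 2 (muS a)).toReal ^ 2 ≤ (4 * a * (eLpNorm y 2 (muS a)).toReal) ^ 2 :=
        pow_le_pow_left₀ ENNReal.toReal_nonneg hfin 2
    _ = 16 * a ^ 2 * (eLpNorm y 2 (muS a)).toReal ^ 2 := by ring

end Pool.Agent.Helper55.AB
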