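import Pool.Agent.Helper27.AB.PH3.Goals

/-! # Project AB, module PH3, packet POLF -/

open MeasureTheory Set Filter Topology
open scoped ContDiff

noncomputable section

namespace Pool.Agent.Helper55.AB

open Pool.Agent.Helper24.AB Pool.Agent.Helper15.AB Pool.Agent.Helper27.AB

theorem polf (hA : S_POLA) (hB : S_POLB) (hT : S_ATL) : S_POLF := by
  intro a A s hs m
  obtain ⟨hadd, -, -, hmul, -, -, hcon⟩ := hA a
  obtain ⟨-, hu, hv, hl, hh⟩ := hB a hs.a_pos m
  obtain ⟨hsm, -, heq, -⟩ := hT a A s hs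
  have e1 : ContDiff ℝ ∞ (fun x : ℝ => Atl a A s x * (a ^ 2 - x ^ 2)) :=
    hsm.mul (contDiff_const.sub (contDiff_id.pow 2))
  have e2 : ContDiff ℝ ∞ (fun x : ℝ => 4 * A ^ 2 * (a ^ 2 - x ^ 2)) :=
    contDiff_const.mul (contDiff_const.sub (contDiff_id.pow 2))
  have h1 := hmul m _ _ (hh _ e1) (hmul m _ _ hu hu)
  have h2 := hmul m _ _ (hh _ e2) (hadd m _ _ (hmul m _ _ hv hv) (hmul m _ _ hl hl))
  refine hcon m _ _ ?_ (hadd m _ _ h1 h2)
  intro q z hz
  have hz' : |z.re| < a := hz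
  have := heq z.re hz'
  simp only [Ff, gf]
  rw [this]
  ring

end Pool.Agent.Helper55.AB
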